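import Mathlib

/-!
# Localizing a Green functor at a non-top level need not be flat

Mackey functors for a finite group are given in Green's form (values at subgroups `H`, playing the
role of `M(G/H)`, with restrictions, transfers, conjugations and the double coset formula).
Commutative Green functors, modules over them, pairings (these are the maps out of the box
product over `R`), the box product over `R` (by its universal property), flatness and localization
(initial algebra in which an element at level `H` becomes a unit) are defined below.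
-/

namespace Pool.Agent.Results.MP_196a0c_al.LocNotFlat

/-- The conjugate subgroup `g H g⁻¹`. -/
abbrev cj {G : Type} [Group G] (g : G) (H : Subgroup G) : Subgroup G :=
  H.map (MulAut.conj g).toMonoidHom

theorem cj_inf_le {G : Type} [Group G] (g : G) (J K : Subgroup G) :
    cj g (K ⊓ cj g⁻¹ J) ≤ J := by
  rintro _ ⟨x, ⟨_, y, hy, rfl⟩, rfl⟩
  simpa [mul_assoc] using hy

/-- A Mackey functor for the group `G`; `obj H` is the value at the orbit `G/H`. -/
structure Mackey (G : Type) [Group G] where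
  /-- the value at `G/H` -/
  obj : Subgroup G → Type
  [grp : ∀ H, AddCommGroup (obj H)]
  /-- restriction -/
  res : ∀ {K H : Subgroup G}, K ≤ H → obj H → obj K
  /-- transfer -/
  tr : ∀ {K H : Subgroup G}, K ≤ H → obj K → obj H
  /-- conjugation -/
  conj : ∀ (g : G) {H K : Subgroup G}, cj g H = K → obj H → obj K
  res_add : ∀ {K H : Subgroup G} (h : K ≤ H) (x y : obj H), res h (x + y) = res h x + res h y
  tr_add : ∀ {K H : Subgroup G} (h : K ≤ H) (x y : obj K), tr h (x + y) = tr h x + tr h y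
  conj_add : ∀ (g : G) {H K : Subgroup G} (h : cj g H = K) (x y : obj H),
    conj g h (x + y) = conj g h x + conj g h y
  res_refl : ∀ (H : Subgroup G) (x : obj H), res (le_refl H) x = x
  res_res : ∀ {L K H : Subgroup G} (h₁ : L ≤ K) (h₂ : K ≤ H) (x : obj H),
    res h₁ (res h₂ x) = res (h₁.trans h₂) x
  tr_refl : ∀ (H : Subgroup G) (x : obj H), tr (le_refl H) x = x
  tr_tr : ∀ {L K H : Subgroup G} (h₁ : L ≤ K) (h₂ : K ≤ H) (x : obj L),
    tr h₂ (tr h₁ x) = tr (h₁.trans h₂) x
  conj_of_mem : ∀ {H : Subgroup G} {g : G}, g ∈ H → ∀ (h : cj g H = H) (x : obj H),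
    conj g h x = x
  conj_conj : ∀ (g₁ g₂ : G) {H K L : Subgroup G} (h₁ : cj g₁ H = K) (h₂ : cj g₂ K = L)
    (h₃ : cj (g₂ * g₁) H = L) (x : obj H), conj g₂ h₂ (conj g₁ h₁ x) = conj (g₂ * g₁) h₃ x
  conj_res : ∀ (g : G) {K H K' H' : Subgroup G} (h : K ≤ H) (h' : K' ≤ H') (hK : cj g K = K')
    (hH : cj g H = H') (x : obj H), conj g hK (res h x) = res h' (conj g hH x)
  conj_tr : ∀ (g : G) {K H K' H' : Subgroup G} (h : K ≤ H) (h' : K' ≤ H') (hK : cj g K = K')
    (hH : cj g H = H') (x : obj K), conj g hH (tr h x) = tr h' (conj g hK x)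
  /-- the double coset formula, the sum being over (representatives `q.out` of) `J \ H / K` -/
  mackey : ∀ {J K H : Subgroup G} (hJ : J ≤ H) (hK : K ≤ H) (x : obj K),
    res hJ (tr hK x) =
      ∑ᶠ q : DoubleCoset.Quotient (J.subgroupOf H : Set H) (K.subgroupOf H : Set H),
        tr (cj_inf_le (q.out : G) J K)
          (conj (q.out : G) rfl (res (inf_le_left : K ⊓ cj (q.out : G)⁻¹ J ≤ K) x))

attribute [instance] Mackey.grp

variable {G : Type} [Group G]

/-- A morphism of Mackey functors. -/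
@[ext] structure Mackey.Hom (M N : Mackey G) where
  /-- the components -/
  app : ∀ H, M.obj H → N.obj H
  app_add : ∀ {H : Subgroup G} (x y : M.obj H), app H (x + y) = app H x + app H y
  app_res : ∀ {K H : Subgroup G} (h : K ≤ H) (x : M.obj H),
    app K (M.res h x) = N.res h (app H x)
  app_tr : ∀ {K H : Subgroup G} (h : K ≤ H) (x : M.obj K),
    app H (M.tr h x) = N.tr h (app K x)
  app_conj : ∀ (g : G) {H K : Subgroup G} (h : cj g H = K) (x : M.obj H),
    app K (M.conj g h x) = N.conj g h (app H x)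

/-- A commutative Green functor: every `R(G/H)` is a commutative ring, restrictions and
conjugations are ring homomorphisms, and Frobenius reciprocity holds. -/
structure Green (G : Type) [Group G] extends Mackey G where
  /-- multiplication -/
  mul : ∀ {H}, obj H → obj H → obj H
  /-- the unit -/
  one : ∀ H, obj H
  mul_add : ∀ {H} (x y z : obj H), mul x (y + z) = mul x y + mul x z
  mul_assoc : ∀ {H} (x y z : obj H), mul (mul x y) z = mul x (mul y z)
  mul_comm : ∀ {H} (x y : obj H), mul x y = mul y x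
  one_mul : ∀ {H} (x : obj H), mul (one H) x = x
  res_mul : ∀ {K H : Subgroup G} (h : K ≤ H) (x y : obj H),
    res h (mul x y) = mul (res h x) (res h y)
  res_one : ∀ {K H : Subgroup G} (h : K ≤ H), res h (one H) = one K
  conj_mul : ∀ (g : G) {H K : Subgroup G} (h : cj g H = K) (x y : obj H),
    conj g h (mul x y) = mul (conj g h x) (conj g h y)
  conj_one : ∀ (g : G) {H K : Subgroup G} (h : cj g H = K), conj g h (one H) = one K
  frobenius : ∀ {K H : Subgroup G} (h : K ≤ H) (x : obj K) (y : obj H),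
    tr h (mul x (res h y)) = mul (tr h x) y

/-- `b ∈ R(G/H)` is a unit. -/
def Green.Unit (R : Green G) {H : Subgroup G} (b : R.obj H) : Prop :=
  ∃ c : R.obj H, R.mul b c = R.one H

/-- A morphism of Green functors. -/
@[ext] structure Green.Hom (R S : Green G) extends Mackey.Hom R.toMackey S.toMackey where
  app_mul : ∀ {H} (x y : R.obj H), app H (R.mul x y) = S.mul (app H x) (app H y)
  app_one : ∀ H, app H (R.one H) = S.one H

/-- A module over a commutative Green functor (the two last axioms are the Frobenius relations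
which an action map out of the box product satisfies). -/
structure Mod (R : Green G) extends Mackey G where
  /-- the action -/
  smul : ∀ {H}, R.obj H → obj H → obj H
  smul_add : ∀ {H} (r : R.obj H) (x y : obj H), smul r (x + y) = smul r x + smul r y
  add_smul : ∀ {H} (r s : R.obj H) (x : obj H), smul (r + s) x = smul r x + smul s x
  one_smul : ∀ {H} (x : obj H), smul (R.one H) x = x
  mul_smul : ∀ {H} (r s : R.obj H) (x : obj H), smul (R.mul r s) x = smul r (smul s x)
  res_smul : ∀ {K H : Subgroup G} (h : K ≤ H) (r : R.obj H) (x : obj H),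
    res h (smul r x) = smul (R.res h r) (res h x)
  conj_smul : ∀ (g : G) {H K : Subgroup G} (h : cj g H = K) (r : R.obj H) (x : obj H),
    conj g h (smul r x) = smul (R.conj g h r) (conj g h x)
  tr_smul : ∀ {K H : Subgroup G} (h : K ≤ H) (r : R.obj K) (x : obj H),
    tr h (smul r (res h x)) = smul (R.tr h r) x
  smul_tr : ∀ {K H : Subgroup G} (h : K ≤ H) (r : R.obj H) (x : obj K),
    tr h (smul (R.res h r) x) = smul r (tr h x)

variable {R : Green G}

/-- A morphism of `R`-modules. -/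
@[ext] structure Mod.Hom (M N : Mod R) extends Mackey.Hom M.toMackey N.toMackey where
  app_smul : ∀ {H} (r : R.obj H) (x : M.obj H), app H (M.smul r x) = N.smul r (app H x)

/-- An `R`-bilinear pairing `M, N → P`, that is, a morphism `M ⊠_R N → P` of `R`-modules. -/
structure Pairing (M N P : Mod R) where
  /-- the components -/
  app : ∀ {H}, M.obj H → N.obj H → P.obj H
  add_app : ∀ {H} (x x' : M.obj H) (y : N.obj H), app (x + x') y = app x y + app x' y
  app_add : ∀ {H} (x : M.obj H) (y y' : N.obj H), app x (y + y') = app x y + app x y'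
  smul_left : ∀ {H} (r : R.obj H) (x : M.obj H) (y : N.obj H),
    app (M.smul r x) y = P.smul r (app x y)
  smul_right : ∀ {H} (r : R.obj H) (x : M.obj H) (y : N.obj H),
    app x (N.smul r y) = P.smul r (app x y)
  res_app : ∀ {K H : Subgroup G} (h : K ≤ H) (x : M.obj H) (y : N.obj H),
    P.res h (app x y) = app (M.res h x) (N.res h y)
  conj_app : ∀ (g : G) {H K : Subgroup G} (h : cj g H = K) (x : M.obj H) (y : N.obj H),
    P.conj g h (app x y) = app (M.conj g h x) (N.conj g h y)
  tr_left : ∀ {K H : Subgroup G} (h : K ≤ H) (x : M.obj K) (y : N.obj H),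
    P.tr h (app x (N.res h y)) = app (M.tr h x) y
  tr_right : ∀ {K H : Subgroup G} (h : K ≤ H) (x : M.obj H) (y : N.obj K),
    P.tr h (app (M.res h x) y) = app x (N.tr h y)

/-- The pairing `θ` exhibits `P` as the box product `M ⊠_R N`: it is universal. -/
def Pairing.IsBox {M N P : Mod R} (θ : Pairing M N P) : Prop :=
  ∀ (Q : Mod R) (η : Pairing M N Q), ∃! f : Mod.Hom P Q,
    ∀ (H : Subgroup G) (x : M.obj H) (y : N.obj H), f.app H (θ.app x y) = η.app x y

/-- Exactness of a sequence of modules is exactness at every level. -/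
def ExactSeq {M N P : Mod R} (f : Mod.Hom M N) (g : Mod.Hom N P) : Prop :=
  ∀ H, Function.Exact (f.app H) (g.app H)

/-- `f' : P → P'` is the map `M ⊠_R f` induced by `f : N → N'`. -/
def Induced {M N N' P P' : Mod R} (θ : Pairing M N P) (θ' : Pairing M N' P') (f : Mod.Hom N N')
    (f' : Mod.Hom P P') : Prop :=
  ∀ (H : Subgroup G) (x : M.obj H) (y : N.obj H), f'.app H (θ.app x y) = θ'.app x (f.app H y)

/-- `M` is flat: the functor `M ⊠_R (-)` preserves exact sequences. -/
def Flat (M : Mod R) : Prop :=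
  ∀ (N₁ N₂ N₃ : Mod R) (f : Mod.Hom N₁ N₂) (g : Mod.Hom N₂ N₃), ExactSeq f g →
  ∀ (P₁ P₂ P₃ : Mod R) (θ₁ : Pairing M N₁ P₁) (θ₂ : Pairing M N₂ P₂) (θ₃ : Pairing M N₃ P₃),
    θ₁.IsBox → θ₂.IsBox → θ₃.IsBox →
  ∀ (f' : Mod.Hom P₁ P₂) (g' : Mod.Hom P₂ P₃), Induced θ₁ θ₂ f f' → Induced θ₂ θ₃ g g' →
    ExactSeq f' g'

/-- A commutative `R`-algebra `φ : R → S` regarded as an `R`-module. -/
def Green.Hom.toMod {R S : Green G} (φ : Green.Hom R S) : Mod R where
  toMackey := S.toMackey
  smul r x := S.mul (φ.app _ r) x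
  smul_add r x y := S.mul_add (φ.app _ r) x y
  add_smul r s x := by rw [φ.app_add, S.mul_comm, S.mul_add, S.mul_comm x, S.mul_comm x]
  one_smul x := by rw [φ.app_one, S.one_mul]
  mul_smul r s x := by rw [φ.app_mul, S.mul_assoc]
  res_smul h r x := by rw [S.res_mul, φ.app_res]
  conj_smul g H K h r x := by rw [S.conj_mul, φ.app_conj]
  tr_smul h r x := by rw [S.frobenius, φ.app_tr]
  smul_tr h r x := by rw [φ.app_res, S.mul_comm, S.frobenius, S.mul_comm]

/-- The `R`-algebra `φ : R → S` is the localization `R[b⁻¹]` at `b ∈ R(G/H)`: the image of `b` is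
a unit, and `S` is initial among the commutative `R`-algebras with this property. -/
def IsLocalizationAt {R S : Green G} {H : Subgroup G} (b : R.obj H) (φ : Green.Hom R S) : Prop :=
  S.Unit (φ.app H b) ∧
    ∀ (T : Green G) (ψ : Green.Hom R T), T.Unit (ψ.app H b) →
      ∃! χ : Green.Hom S T, ∀ (K : Subgroup G) (x : R.obj K), χ.app K (φ.app K x) = ψ.app K x

/-! ### The group of order two -/

/-- The group of order two. -/
abbrev C2 : Type := Multiplicative (ZMod 2)

theorem card_C2 : Nat.card C2 = 2 := by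
  simp [C2, Nat.card_eq_fintype_card]

theorem bot_or_top (H : Subgroup C2) : H = ⊥ ∨ H = ⊤ := by
  have h2 : Fact (Nat.Prime (Nat.card C2)) := ⟨by rw [card_C2]; exact Nat.prime_two⟩
  exact H.eq_bot_or_eq_top_of_prime_card

theorem cj_eq (g : C2) (H : Subgroup C2) : cj g H = H := by
  ext x
  simp only [cj, Subgroup.mem_map]
  constructor
  · rintro ⟨y, hy, rfl⟩
    simpa using hy
  · intro hx
    exact ⟨x, hx, by simp⟩

theorem bot_ne_top : (⊥ : Subgroup C2) ≠ ⊤ := by
  intro h
  have h1 : Nat.card (⊥ : Subgroup C2) = Nat.card (⊤ : Subgroup C2) := by rw [h]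
  rw [Subgroup.card_bot, Subgroup.card_top, card_C2] at h1
  omega

theorem relIndex_bot_top : (⊥ : Subgroup C2).relIndex ⊤ = 2 := by
  rw [Subgroup.relIndex_top_right, Subgroup.index_bot, card_C2]

theorem card_dc_top_left {H : Type} [Group H] (K : Subgroup H) :
    Nat.card (DoubleCoset.Quotient ((⊤ : Subgroup H) : Set H) (K : Set H)) = 1 := by
  rw [Nat.card_eq_one_iff_unique]
  refine ⟨⟨fun a b => ?_⟩, ⟨DoubleCoset.mk _ _ 1⟩⟩
  rw [← DoubleCoset.out_eq' _ _ a, ← DoubleCoset.out_eq' _ _ b, DoubleCoset.eq]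
  exact ⟨b.out * a.out⁻¹, Subgroup.mem_top _, 1, K.one_mem, by simp⟩

theorem card_dc_top_right {H : Type} [Group H] (K : Subgroup H) :
    Nat.card (DoubleCoset.Quotient (K : Set H) ((⊤ : Subgroup H) : Set H)) = 1 := by
  rw [Nat.card_eq_one_iff_unique]
  refine ⟨⟨fun a b => ?_⟩, ⟨DoubleCoset.mk _ _ 1⟩⟩
  rw [← DoubleCoset.out_eq' _ _ a, ← DoubleCoset.out_eq' _ _ b, DoubleCoset.eq]
  exact ⟨1, K.one_mem, a.out⁻¹ * b.out, Subgroup.mem_top _, by simp⟩

theorem card_dc_bot {H : Type} [Group H] :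
    Nat.card (DoubleCoset.Quotient ((⊥ : Subgroup H) : Set H) ((⊥ : Subgroup H) : Set H))
      = Nat.card H := by
  symm
  apply Nat.card_eq_of_bijective (DoubleCoset.mk ⊥ ⊥)
  constructor
  · intro a b hab
    rw [DoubleCoset.eq] at hab
    obtain ⟨h, hh, k, hk, e⟩ := hab
    rw [Subgroup.mem_bot] at hh hk
    rw [e, hh, hk]; simp
  · intro q
    exact ⟨q.out, DoubleCoset.out_eq' _ _ q⟩

section basic
variable (A B : Type) [AddCommGroup A] [AddCommGroup B]

/-- The values of the basic Mackey functor. -/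
abbrev BObj (H : Subgroup C2) : Type := A × (PLift (H = ⊤) → B)

open Classical in
/-- the transfer of the basic functor -/
noncomputable def bTr {K H : Subgroup C2} (_h : K ≤ H) : BObj A B K →+ BObj A B H where
  toFun x := (K.relIndex H • x.1, fun _ => if hK : K = ⊤ then x.2 ⟨hK⟩ else 0)
  map_zero' := by ext <;> simp
  map_add' x y := by
    ext
    · simp
    · simp only [Prod.snd_add, Pi.add_apply]
      split_ifs <;> simp

/-- the restriction of the basic functor -/
def bRes {K H : Subgroup C2} (h : K ≤ H) : BObj A B H →+ BObj A B K where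
  toFun x := (x.1, fun hK => x.2 ⟨top_le_iff.1 (hK.down ▸ h)⟩)
  map_zero' := by ext <;> simp
  map_add' x y := by ext <;> simp

/-- the conjugation of the basic functor -/
def bConj (g : C2) {H K : Subgroup C2} (h : cj g H = K) : BObj A B H →+ BObj A B K where
  toFun x := (x.1, fun hK => x.2 ⟨by rw [← cj_eq g H, h]; exact hK.down⟩)
  map_zero' := by ext <;> simp
  map_add' x y := by ext <;> simp

open Classical in
/-- the double coset term -/
noncomputable def bT0 (J K : Subgroup C2) (x : BObj A B K) : BObj A B J :=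
  ((K ⊓ J).relIndex J • x.1, fun _ => if hK : K = ⊤ then x.2 ⟨hK⟩ else 0)

theorem bterm {J K : Subgroup C2} (g : C2) (x : BObj A B K) :
    bTr A B (cj_inf_le g J K)
      (bConj A B g rfl (bRes A B (inf_le_left : K ⊓ cj g⁻¹ J ≤ K) x)) = bT0 A B J K x := by
  have h1 : cj g (K ⊓ cj g⁻¹ J) = K ⊓ J := by rw [cj_eq, cj_eq]
  apply Prod.ext
  · simp only [bTr, bConj, bRes, bT0, AddMonoidHom.coe_mk, ZeroHom.coe_mk]
    rw [h1]
  · funext hJ
    simp only [bTr, bConj, bRes, bT0, AddMonoidHom.coe_mk, ZeroHom.coe_mk]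
    have hJ' := hJ.down
    by_cases hK : K = ⊤
    · rw [dif_pos hK, dif_pos]
      rw [h1, hK, hJ']; simp
    · rw [dif_neg hK, dif_neg]
      rw [h1, hJ']; simpa using hK

theorem bmackey {J K H : Subgroup C2} (hJ : J ≤ H) (hK : K ≤ H) (x : BObj A B K) :
    bRes A B hJ (bTr A B hK x) =
      ∑ᶠ q : DoubleCoset.Quotient (J.subgroupOf H : Set H) (K.subgroupOf H : Set H),
        bTr A B (cj_inf_le (q.out : C2) J K)
          (bConj A B (q.out : C2) rfl
            (bRes A B (inf_le_left : K ⊓ cj (q.out : C2)⁻¹ J ≤ K) x)) := by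
  simp only [bterm]
  have hfin : Finite
      (DoubleCoset.Quotient (J.subgroupOf H : Set H) (K.subgroupOf H : Set H)) :=
    Finite.of_surjective (DoubleCoset.mk (J.subgroupOf H) (K.subgroupOf H))
      (fun q => ⟨q.out, DoubleCoset.out_eq' _ _ q⟩)
  have hsum : (∑ᶠ _q : DoubleCoset.Quotient (J.subgroupOf H : Set H) (K.subgroupOf H : Set H),
      bT0 A B J K x) = Nat.card (DoubleCoset.Quotient (J.subgroupOf H : Set H)
        (K.subgroupOf H : Set H)) • bT0 A B J K x := by
    have := Fintype.ofFinite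
      (DoubleCoset.Quotient (J.subgroupOf H : Set H) (K.subgroupOf H : Set H))
    rw [finsum_eq_sum_of_fintype, Finset.sum_const, Nat.card_eq_fintype_card, Finset.card_univ]
  rw [hsum]
  rcases bot_or_top H with rfl | rfl
  · obtain rfl := le_bot_iff.1 hJ
    obtain rfl := le_bot_iff.1 hK
    rw [Subgroup.subgroupOf_self, card_dc_top_left, one_smul]
    apply Prod.ext
    · simp [bRes, bTr, bT0]
    · funext h; exact absurd h.down bot_ne_top
  · rcases bot_or_top J with rfl | rfl
    · rcases bot_or_top K with rfl | rfl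
      · rw [Subgroup.bot_subgroupOf, card_dc_bot]
        have : Nat.card (⊤ : Subgroup C2) = 2 := by rw [Subgroup.card_top, card_C2]
        rw [this]
        apply Prod.ext
        · simp [bRes, bTr, bT0]
        · funext h; exact absurd h.down bot_ne_top
      · rw [Subgroup.subgroupOf_self, card_dc_top_right, one_smul]
        apply Prod.ext
        · simp [bRes, bTr, bT0]
        · funext h; exact absurd h.down bot_ne_top
    · rw [Subgroup.subgroupOf_self, card_dc_top_left, one_smul]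
      apply Prod.ext
      · simp [bRes, bTr, bT0]
      · funext h
        simp [bRes, bTr, bT0]

/-- The basic Mackey functor for the group of order two. -/
noncomputable def bMackey : Mackey C2 where
  obj H := BObj A B H
  res h := bRes A B h
  tr h := bTr A B h
  conj g _ _ h := bConj A B g h
  res_add h x y := map_add (bRes A B h) x y
  tr_add h x y := map_add (bTr A B h) x y
  conj_add g _ _ h x y := map_add (bConj A B g h) x y
  res_refl H x := rfl
  res_res h₁ h₂ x := rfl
  tr_refl H x := by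
    apply Prod.ext
    · simp [bTr]
    · funext h
      simp [bTr, h.down]
  tr_tr {L K H} h₁ h₂ x := by
    apply Prod.ext
    · simp only [bTr, AddMonoidHom.coe_mk, ZeroHom.coe_mk]
      rw [smul_smul, mul_comm, Subgroup.relIndex_mul_relIndex L K H h₁ h₂]
    · funext h
      simp only [bTr, AddMonoidHom.coe_mk, ZeroHom.coe_mk]
      by_cases hL : L = ⊤
      · subst hL
        have : K = ⊤ := top_le_iff.1 h₁
        simp [this]
      · simp [hL]
  conj_of_mem _ h x := rfl
  conj_conj g₁ g₂ _ _ _ h₁ h₂ h₃ x := rfl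
  conj_res g _ _ _ _ h h' hK hH x := rfl
  conj_tr g K H K' H' h h' hK hH x := by
    rw [cj_eq] at hK hH
    subst hK hH
    rfl
  mackey hJ hK x := bmackey A B hJ hK x

end basic

section green
variable (A B : Type) [CommRing A] [CommRing B]

theorem bfrob {K H : Subgroup C2} (h : K ≤ H) (x : BObj A B K) (y : BObj A B H) :
    bTr A B h (x * bRes A B h y) = bTr A B h x * y := by
  apply Prod.ext
  · simp [bTr, bRes, mul_assoc]
  · funext hH
    simp only [bTr, bRes, AddMonoidHom.coe_mk, ZeroHom.coe_mk, Prod.snd_mul, Pi.mul_apply]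
    by_cases hK : K = ⊤
    · simp [hK]
    · simp [hK]

/-- The basic Green functor for the group of order two. -/
noncomputable def bGreen : Green C2 where
  toMackey := bMackey A B
  mul := fun {H} (x y : BObj A B H) => (x * y : BObj A B H)
  one H := (1 : BObj A B H)
  mul_add {H} x y z := mul_add (R := BObj A B H) x y z
  mul_assoc {H} x y z := mul_assoc (G := BObj A B H) x y z
  mul_comm {H} x y := mul_comm (G := BObj A B H) x y
  one_mul {H} x := one_mul (M := BObj A B H) x
  res_mul _ _ _ := rfl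
  res_one _ := rfl
  conj_mul _ _ _ _ _ _ := rfl
  conj_one _ _ _ _ := rfl
  frobenius h x y := bfrob A B h x y

end green

/-- The ring `ℤ[1/2]`. -/
abbrev Zh : Type := Localization.Away (2 : ℤ)

/-- The constant Green functor `ℤ`. -/
noncomputable abbrev RR : Green C2 := bGreen ℤ PUnit

/-- The localization. -/
noncomputable abbrev SS : Green C2 := bGreen Zh (ZMod 2)

/-- components of the structure map -/
noncomputable def phiApp (H : Subgroup C2) : BObj ℤ PUnit H →+ BObj Zh (ZMod 2) H where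
  toFun x := ((x.1 : Zh), fun _ => (x.1 : ZMod 2))
  map_zero' := by ext <;> simp
  map_add' x y := by ext <;> simp

theorem phi_tr {K H : Subgroup C2} (h : K ≤ H) (x : BObj ℤ PUnit K) :
    phiApp H (bTr ℤ PUnit h x) = bTr Zh (ZMod 2) h (phiApp K x) := by
  apply Prod.ext
  · simp [bTr, phiApp]
  · funext hH
    simp only [bTr, phiApp, AddMonoidHom.coe_mk, ZeroHom.coe_mk]
    by_cases hK : K = ⊤
    · subst hK
      have : H = ⊤ := hH.down
      subst this
      simp
    · have hK' : K = ⊥ := (bot_or_top K).resolve_right hK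
      have : H = ⊤ := hH.down
      subst this hK'
      rw [relIndex_bot_top, dif_neg hK]
      have h2 : (2 : ZMod 2) = 0 := by decide
      simp [h2]

theorem phi_mul (H : Subgroup C2) (x y : BObj ℤ PUnit H) :
    phiApp H (x * y) = phiApp H x * phiApp H y := by
  ext <;> simp [phiApp]

theorem phi_one (H : Subgroup C2) : phiApp H 1 = 1 := by
  ext <;> simp [phiApp]

/-- The structure map. -/
noncomputable def phi : Green.Hom RR SS where
  app H := phiApp H
  app_add {H} x y := map_add (phiApp H) x y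
  app_res _ _ := rfl
  app_tr h x := phi_tr h x
  app_conj _ _ _ _ _ := rfl
  app_mul {H} x y := phi_mul H x y
  app_one H := phi_one H

/-- transfer as an additive map -/
def Mackey.trHom (M : Mackey G) {K H : Subgroup G} (h : K ≤ H) : M.obj K →+ M.obj H :=
  AddMonoidHom.mk' (M.tr h) (M.tr_add h)

/-- restriction as an additive map -/
def Mackey.resHom (M : Mackey G) {K H : Subgroup G} (h : K ≤ H) : M.obj H →+ M.obj K :=
  AddMonoidHom.mk' (M.res h) (M.res_add h)

/-- conjugation as an additive map -/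
def Mackey.conjAdd (M : Mackey G) (g : G) {H K : Subgroup G} (h : cj g H = K) :
    M.obj H →+ M.obj K :=
  AddMonoidHom.mk' (M.conj g h) (M.conj_add g h)

/-- components as additive maps -/
def Mackey.Hom.hom {M N : Mackey G} (f : Mackey.Hom M N) (H : Subgroup G) :
    M.obj H →+ N.obj H :=
  AddMonoidHom.mk' (f.app H) f.app_add

/-- the action as a biadditive map -/
def Mod.act {R : Green G} (M : Mod R) {H : Subgroup G} (r : R.obj H) : M.obj H →+ M.obj H :=
  AddMonoidHom.mk' (M.smul r) (M.smul_add r)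

/-- a pairing is additive -/
def Pairing.hom {R : Green G} {M N P : Mod R} (θ : Pairing M N P) {H : Subgroup G}
    (x : M.obj H) : N.obj H →+ P.obj H :=
  AddMonoidHom.mk' (θ.app x) (θ.app_add x)

/-- The levels of a Green functor are commutative rings. -/
instance Green.instRing (T : Green G) (H : Subgroup G) : CommRing (T.obj H) where
  __ := T.grp H
  mul x y := T.mul x y
  one := T.one H
  mul_assoc x y z := T.mul_assoc x y z
  mul_comm x y := T.mul_comm x y
  one_mul x := T.one_mul x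
  mul_one x := (T.mul_comm x (T.one H)).trans (T.one_mul x)
  left_distrib x y z := T.mul_add x y z
  right_distrib x y z := by
    change T.mul (x + y) z = T.mul x z + T.mul y z
    rw [T.mul_comm, T.mul_add, T.mul_comm z, T.mul_comm z]
  zero_mul x := by
    change T.mul 0 x = 0
    rw [T.mul_comm]
    exact map_zero (AddMonoidHom.mk' (T.mul x) (T.mul_add x))
  mul_zero x := map_zero (AddMonoidHom.mk' (T.mul x) (T.mul_add x))

theorem Green.mul_def (T : Green G) (H : Subgroup G) (x y : T.obj H) : T.mul x y = x * y := rfl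

theorem Green.one_def (T : Green G) (H : Subgroup G) : T.one H = 1 := rfl

/-- conjugation as a ring homomorphism -/
def Green.conjHom (T : Green G) (g : G) {H K : Subgroup G} (h : cj g H = K) :
    T.obj H →+* T.obj K where
  __ := T.conjAdd g h
  map_one' := T.conj_one g h
  map_mul' x y := T.conj_mul g h x y

theorem Green.conjHom_apply (T : Green G) (g : G) {H K : Subgroup G} (h : cj g H = K)
    (x : T.obj H) : T.conjHom g h x = T.conj g h x := rfl

theorem Green.frob (T : Green G) {K H : Subgroup G} (h : K ≤ H) (x : T.obj K) (y : T.obj H) :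
    T.tr h (x * T.res h y) = T.tr h x * y := T.frobenius h x y

theorem Green.res_mul' (T : Green G) {K H : Subgroup G} (h : K ≤ H) (x y : T.obj H) :
    T.res h (x * y) = T.res h x * T.res h y := T.res_mul h x y

theorem Green.res_one' (T : Green G) {K H : Subgroup G} (h : K ≤ H) :
    T.res h (1 : T.obj H) = 1 := T.res_one h

/-- The element `2` at the bottom level. -/
def bb (H : Subgroup C2) : BObj ℤ PUnit H := (2, fun _ => PUnit.unit)

theorem bobj_eq (H : Subgroup C2) (x : BObj ℤ PUnit H) : x = x.1 • (1 : BObj ℤ PUnit H) := by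
  apply Prod.ext
  · simp
  · funext h
    rfl

section univ

variable (T : Green C2) (ψ : Green.Hom RR T)

theorem psi_eq (H : Subgroup C2) (x : BObj ℤ PUnit H) :
    ψ.app H x = ((x.1 : ℤ) : T.obj H) := by
  rw [bobj_eq H x]
  have h1 : ψ.app H (1 : BObj ℤ PUnit H) = 1 := ψ.app_one H
  have h2 : ψ.app H (x.1 • (1 : BObj ℤ PUnit H)) = x.1 • ψ.app H (1 : BObj ℤ PUnit H) :=
    map_zsmul (ψ.hom H) x.1 (1 : BObj ℤ PUnit H)
  rw [h2, h1, zsmul_one]
  simp

include ψ in
theorem tr_one_eq (h : (⊥ : Subgroup C2) ≤ ⊤) : T.tr h (1 : T.obj ⊥) = 2 := by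
  have h1 : ψ.app ⊥ (1 : BObj ℤ PUnit ⊥) = 1 := ψ.app_one ⊥
  have h2 := ψ.app_tr h (1 : BObj ℤ PUnit ⊥)
  rw [h1] at h2
  rw [← h2]
  have h3 := psi_eq T ψ ⊤ (bTr ℤ PUnit h 1)
  refine h3.trans ?_
  have : (bTr ℤ PUnit h 1).1 = 2 := by
    simp [bTr, relIndex_bot_top]
  rw [this]
  norm_num

theorem isUnit_two (hu : T.Unit (ψ.app ⊥ (bb ⊥))) :
    IsUnit ((Int.castRingHom (T.obj ⊥)) 2) := by
  obtain ⟨c, hc⟩ := hu
  rw [psi_eq, T.mul_def, T.one_def] at hc
  exact IsUnit.of_mul_eq_one c hc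

variable (hu : T.Unit (ψ.app ⊥ (bb ⊥)))

/-- The map `ℤ[1/2] → T(⊥)`. -/
noncomputable def rho : Zh →+* T.obj ⊥ := IsLocalization.Away.lift (2 : ℤ) (isUnit_two T ψ hu)

theorem ringHom_Zh_ext {A : Type} [Semiring A] (f g : Zh →+* A) : f = g := by
  apply IsLocalization.ringHom_ext (Submonoid.powers (2 : ℤ))
  exact RingHom.ext_int _ _

theorem conj_rho (g : C2) (h : cj g ⊥ = ⊥) (a : Zh) :
    T.conj g h (rho T ψ hu a) = rho T ψ hu a := by
  have := ringHom_Zh_ext ((T.conjHom g h).comp (rho T ψ hu)) (rho T ψ hu)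
  exact congrArg (fun f => f a) this

theorem term_rho (g : C2) {L M : Subgroup C2} (h1 : L ≤ ⊥) (hc : cj g L = M) (h2 : M ≤ ⊥)
    (a : Zh) : T.tr h2 (T.conj g hc (T.res h1 (rho T ψ hu a))) = rho T ψ hu a := by
  obtain rfl := le_bot_iff.1 h1
  obtain rfl := le_bot_iff.1 h2
  rw [T.res_refl, conj_rho, T.tr_refl]

theorem res_tr_rho (h : (⊥ : Subgroup C2) ≤ ⊤) (a : Zh) :
    T.res h (T.tr h (rho T ψ hu a)) = 2 * rho T ψ hu a := by
  rw [T.mackey h h]
  simp only [term_rho]
  have hc : Nat.card (DoubleCoset.Quotient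
      (((⊥ : Subgroup C2).subgroupOf ⊤ : Subgroup (⊤ : Subgroup C2)) : Set (⊤ : Subgroup C2))
      (((⊥ : Subgroup C2).subgroupOf ⊤ : Subgroup (⊤ : Subgroup C2)) : Set (⊤ : Subgroup C2)))
      = 2 := by
    rw [Subgroup.bot_subgroupOf, card_dc_bot, Subgroup.card_top, card_C2]
  have hfin : Finite (DoubleCoset.Quotient
      (((⊥ : Subgroup C2).subgroupOf ⊤ : Subgroup (⊤ : Subgroup C2)) : Set (⊤ : Subgroup C2))
      (((⊥ : Subgroup C2).subgroupOf ⊤ : Subgroup (⊤ : Subgroup C2)) : Set (⊤ : Subgroup C2))) :=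
    Nat.finite_of_card_ne_zero (by rw [hc]; norm_num)
  have := Fintype.ofFinite (DoubleCoset.Quotient
      (((⊥ : Subgroup C2).subgroupOf ⊤ : Subgroup (⊤ : Subgroup C2)) : Set (⊤ : Subgroup C2))
      (((⊥ : Subgroup C2).subgroupOf ⊤ : Subgroup (⊤ : Subgroup C2)) : Set (⊤ : Subgroup C2)))
  rw [finsum_eq_sum_of_fintype, Finset.sum_const, Finset.card_univ, ← Nat.card_eq_fintype_card,
    hc]
  simp [two_mul, two_nsmul]

/-- `1/2` in `ℤ[1/2]`. -/
noncomputable def hf : Zh := IsLocalization.Away.invSelf (2 : ℤ)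

theorem two_mul_hf : (2 : Zh) * hf = 1 := by
  have := IsLocalization.Away.mul_invSelf (S := Zh) (2 : ℤ)
  rw [hf]
  simpa using this

/-- the scaled transfer `a ↦ tr (a / 2)` -/
noncomputable def tau : Zh →+ T.obj ⊤ :=
  (T.trHom bot_le).comp ((rho T ψ hu).toAddMonoidHom.comp (AddMonoidHom.mulLeft hf))

theorem tau_apply (a : Zh) : tau T ψ hu a = T.tr bot_le (rho T ψ hu (hf * a)) := rfl

theorem tau_mul (a b : Zh) : tau T ψ hu a * tau T ψ hu b = tau T ψ hu (a * b) := by
  simp only [tau_apply]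
  rw [← T.frob, res_tr_rho]
  have h2 : (2 : T.obj ⊥) = rho T ψ hu 2 := (map_ofNat (rho T ψ hu) 2).symm
  rw [h2, ← map_mul, ← map_mul]
  congr 2
  linear_combination (hf * a * b) * two_mul_hf

theorem res_tau (h : (⊥ : Subgroup C2) ≤ ⊤) (a : Zh) :
    T.res h (tau T ψ hu a) = rho T ψ hu a := by
  rw [tau_apply, res_tr_rho]
  have h2 : (2 : T.obj ⊥) = rho T ψ hu 2 := (map_ofNat (rho T ψ hu) 2).symm
  rw [h2, ← map_mul, ← mul_assoc, two_mul_hf, one_mul]

theorem tau_two_mul (h : (⊥ : Subgroup C2) ≤ ⊤) (a : Zh) :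
    tau T ψ hu (2 * a) = T.tr h (rho T ψ hu a) := by
  rw [tau_apply]
  congr 2
  linear_combination a * two_mul_hf

theorem tau_two : tau T ψ hu 2 = 2 := by
  have := tau_two_mul T ψ hu bot_le 1
  rw [mul_one, map_one, tr_one_eq T ψ] at this
  exact this

/-- the complementary idempotent `1 - tr (1/2)` -/
noncomputable def eps : T.obj ⊤ := 1 - tau T ψ hu 1

theorem two_eps : (2 : ℤ) • eps T ψ hu = 0 := by
  rw [eps, smul_sub, ← map_zsmul]
  have : (2 : ℤ) • (1 : Zh) = 2 := by simp
  rw [this, tau_two]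
  simp

theorem eps_mul : eps T ψ hu * eps T ψ hu = eps T ψ hu := by
  have := tau_mul T ψ hu 1 1
  rw [mul_one] at this
  rw [eps]
  linear_combination this

theorem tau_eps (a : Zh) : tau T ψ hu a * eps T ψ hu = 0 := by
  have := tau_mul T ψ hu a 1
  rw [mul_one] at this
  rw [eps]
  linear_combination -this

theorem res_eps (h : (⊥ : Subgroup C2) ≤ ⊤) : T.res h (eps T ψ hu) = 0 := by
  have h1 : T.res h (1 - tau T ψ hu 1) = T.res h 1 - T.res h (tau T ψ hu 1) :=
    map_sub (T.resHom h) _ _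
  rw [eps, h1, res_tau, T.res_one', map_one, sub_self]

theorem two_eps' : zmultiplesHom (T.obj ⊤) (eps T ψ hu) ((2 : ℕ) : ℤ) = 0 :=
  (zmultiplesHom_apply _ (eps T ψ hu) ((2 : ℕ) : ℤ)).trans (two_eps T ψ hu)

/-- the map `ℤ/2 → T(⊤)`, `1 ↦ 1 - tr (1/2)` -/
noncomputable def lam : ZMod 2 →+ T.obj ⊤ :=
  ZMod.lift 2 ⟨zmultiplesHom _ (eps T ψ hu), two_eps' T ψ hu⟩

theorem lam_one : lam T ψ hu 1 = eps T ψ hu := by
  have h := ZMod.lift_coe 2 ⟨zmultiplesHom _ (eps T ψ hu), two_eps' T ψ hu⟩ 1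
  rw [Int.cast_one] at h
  exact h.trans ((zmultiplesHom_apply _ (eps T ψ hu) 1).trans (one_smul ℤ _))

theorem zmod2 (x : ZMod 2) : x = 0 ∨ x = 1 := by
  revert x; decide

theorem lam_mul (x y : ZMod 2) : lam T ψ hu x * lam T ψ hu y = lam T ψ hu (x * y) := by
  rcases zmod2 x with rfl | rfl
  · simp
  rcases zmod2 y with rfl | rfl
  · simp
  rw [mul_one, lam_one, eps_mul]

theorem tau_lam (a : Zh) (x : ZMod 2) : tau T ψ hu a * lam T ψ hu x = 0 := by
  rcases zmod2 x with rfl | rfl
  · simp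
  rw [lam_one, tau_eps]

theorem res_lam (h : (⊥ : Subgroup C2) ≤ ⊤) (x : ZMod 2) :
    T.res h (lam T ψ hu x) = 0 := by
  rcases zmod2 x with rfl | rfl
  · rw [map_zero]
    exact map_zero (T.resHom h)
  rw [lam_one, res_eps]

/-- component at the top level -/
noncomputable def chiTop : BObj Zh (ZMod 2) ⊤ →+ T.obj ⊤ where
  toFun x := tau T ψ hu x.1 + lam T ψ hu (x.2 ⟨rfl⟩)
  map_zero' := by simp
  map_add' x y := by
    simp only [Prod.fst_add, Prod.snd_add, Pi.add_apply, map_add]
    abel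

/-- component at the bottom level -/
noncomputable def chiBot : BObj Zh (ZMod 2) ⊥ →+ T.obj ⊥ where
  toFun x := rho T ψ hu x.1
  map_zero' := by simp
  map_add' x y := by simp

theorem exists_chi : ∃ c : ∀ H, BObj Zh (ZMod 2) H →+ T.obj H,
    (∀ x, c ⊥ x = rho T ψ hu x.1) ∧
    (∀ x, c ⊤ x = tau T ψ hu x.1 + lam T ψ hu (x.2 ⟨rfl⟩)) := by
  classical
  have h1 : ∀ H : Subgroup C2, ∃ c : BObj Zh (ZMod 2) H →+ T.obj H,
      (∀ e : H = ⊥, c = e ▸ chiBot T ψ hu) ∧ (∀ e : H = ⊤, c = e ▸ chiTop T ψ hu) := by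
    intro H
    rcases bot_or_top H with rfl | rfl
    · exact ⟨chiBot T ψ hu, fun _ => rfl, fun e => absurd e bot_ne_top⟩
    · exact ⟨chiTop T ψ hu, fun e => absurd e.symm bot_ne_top, fun _ => rfl⟩
  choose c hc1 hc2 using h1
  refine ⟨c, fun x => ?_, fun x => ?_⟩
  · rw [hc1 ⊥ rfl]; rfl
  · rw [hc2 ⊤ rfl]; rfl

section
variable {c : ∀ H, BObj Zh (ZMod 2) H →+ T.obj H} (hb : ∀ x, c ⊥ x = rho T ψ hu x.1)
  (ht : ∀ x, c ⊤ x = tau T ψ hu x.1 + lam T ψ hu (x.2 ⟨rfl⟩))
include hb ht

theorem chi_res {K H : Subgroup C2} (h : K ≤ H) (x : BObj Zh (ZMod 2) H) :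
    c K (bRes Zh (ZMod 2) h x) = T.res h (c H x) := by
  rcases bot_or_top H with rfl | rfl
  · obtain rfl := le_bot_iff.1 h
    rw [T.res_refl]; rfl
  · rcases bot_or_top K with rfl | rfl
    · rw [hb, ht, T.res_add, res_tau, res_lam, add_zero]; rfl
    · rw [T.res_refl]; rfl

theorem chi_tr {K H : Subgroup C2} (h : K ≤ H) (x : BObj Zh (ZMod 2) K) :
    c H (bTr Zh (ZMod 2) h x) = T.tr h (c K x) := by
  rcases bot_or_top H with rfl | rfl
  · obtain rfl := le_bot_iff.1 h
    rw [T.tr_refl]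
    congr 1
    exact (bMackey Zh (ZMod 2)).tr_refl _ x
  · rcases bot_or_top K with rfl | rfl
    · rw [hb, ht, ← tau_two_mul]
      simp only [bTr, AddMonoidHom.coe_mk, ZeroHom.coe_mk]
      rw [relIndex_bot_top, dif_neg bot_ne_top, map_zero, add_zero]
      simp
    · rw [T.tr_refl]
      congr 1
      exact (bMackey Zh (ZMod 2)).tr_refl _ x

theorem chi_conj (g : C2) {H K : Subgroup C2} (h : cj g H = K) (x : BObj Zh (ZMod 2) H) :
    c K (bConj Zh (ZMod 2) g h x) = T.conj g h (c H x) := by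
  have h' := h
  rw [cj_eq] at h'
  subst h'
  rcases bot_or_top H with rfl | rfl
  · rw [hb, hb, conj_rho]; rfl
  · rw [T.conj_of_mem (Subgroup.mem_top g)]; rfl

theorem chi_mul (H : Subgroup C2) (x y : BObj Zh (ZMod 2) H) :
    c H (x * y) = c H x * c H y := by
  rcases bot_or_top H with rfl | rfl
  · rw [hb, hb, hb, Prod.fst_mul, map_mul]
  · rw [ht, ht, ht, Prod.fst_mul, ← tau_mul, Prod.snd_mul, Pi.mul_apply, ← lam_mul]
    have h1 := tau_lam T ψ hu x.1 (y.2 ⟨rfl⟩)
    have h2 := tau_lam T ψ hu y.1 (x.2 ⟨rfl⟩)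
    linear_combination -h1 - h2

theorem chi_one (H : Subgroup C2) : c H 1 = 1 := by
  rcases bot_or_top H with rfl | rfl
  · rw [hb, Prod.fst_one, map_one]
  · rw [ht, Prod.fst_one, Prod.snd_one, Pi.one_apply, lam_one, eps]
    ring

end

theorem exists_hom : ∃ χ : Green.Hom SS T,
    (∀ x : BObj Zh (ZMod 2) ⊥, χ.app ⊥ x = rho T ψ hu x.1) ∧
    (∀ x : BObj Zh (ZMod 2) ⊤, χ.app ⊤ x = tau T ψ hu x.1 + lam T ψ hu (x.2 ⟨rfl⟩)) := by
  obtain ⟨c, hb, ht⟩ := exists_chi T ψ hu
  exact ⟨{ app := fun H => c H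
           app_add := fun {H} x y => map_add (c H) x y
           app_res := fun h x => chi_res T ψ hu hb ht h x
           app_tr := fun h x => chi_tr T ψ hu hb ht h x
           app_conj := fun g _ _ h x => chi_conj T ψ hu hb ht g h x
           app_mul := fun {H} x y => chi_mul T ψ hu hb ht H x y
           app_one := fun H => chi_one T ψ hu hb ht H }, hb, ht⟩

theorem bot_snd_ext {B : Type} (f g : PLift ((⊥ : Subgroup C2) = ⊤) → B) : f = g := by
  funext h
  exact absurd h.down bot_ne_top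

theorem chi_phi (χ : Green.Hom SS T)
    (hb : ∀ x : BObj Zh (ZMod 2) ⊥, χ.app ⊥ x = rho T ψ hu x.1)
    (ht : ∀ x : BObj Zh (ZMod 2) ⊤, χ.app ⊤ x = tau T ψ hu x.1 + lam T ψ hu (x.2 ⟨rfl⟩))
    (K : Subgroup C2) (x : BObj ℤ PUnit K) : χ.app K (phiApp K x) = ψ.app K x := by
  rw [psi_eq]
  rcases bot_or_top K with rfl | rfl
  · rw [hb]
    simp [phiApp]
  · rw [ht]
    have h1 : tau T ψ hu ((x.1 : ℤ) : Zh) = x.1 • tau T ψ hu 1 := by
      rw [← map_zsmul]; simp
    have h2 : lam T ψ hu ((x.1 : ℤ) : ZMod 2) = x.1 • eps T ψ hu := by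
      rw [← lam_one, ← map_zsmul]; simp
    have h3 : (phiApp ⊤ x).1 = ((x.1 : ℤ) : Zh) := rfl
    have h4 : (phiApp ⊤ x).2 ⟨rfl⟩ = ((x.1 : ℤ) : ZMod 2) := rfl
    rw [h3, h4, h1, h2, ← smul_add, eps]
    simp

section uniq
variable (χ : Green.Hom SS T)

/-- the bottom component of a morphism as a ring homomorphism -/
noncomputable def botHom : Zh →+* T.obj ⊥ where
  toFun a := χ.app ⊥ ((a, fun _ => 0) : BObj Zh (ZMod 2) ⊥)
  map_zero' := map_zero (χ.hom ⊥)
  map_add' a b := map_add (χ.hom ⊥) ((a, fun _ => 0) : BObj Zh (ZMod 2) ⊥) (b, fun _ => 0)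
  map_one' := by
    have h : ((1, fun _ => 0) : BObj Zh (ZMod 2) ⊥) = 1 := Prod.ext rfl (bot_snd_ext _ _)
    rw [h]
    exact χ.app_one ⊥
  map_mul' a b := by
    have h : ((a * b, fun _ => 0) : BObj Zh (ZMod 2) ⊥) = (a, fun _ => 0) * (b, fun _ => 0) :=
      Prod.ext rfl (bot_snd_ext _ _)
    rw [h]
    exact χ.app_mul _ _

theorem uniq_bot (x : BObj Zh (ZMod 2) ⊥) : χ.app ⊥ x = rho T ψ hu x.1 := by
  have h1 := ringHom_Zh_ext (botHom T χ) (rho T ψ hu)
  have h2 : x = (x.1, fun _ => 0) := Prod.ext rfl (bot_snd_ext _ _)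
  rw [← h1]
  conv_lhs => rw [h2]
  rfl

theorem uniq_tau (a : Zh) :
    χ.app ⊤ ((a, fun _ => 0) : BObj Zh (ZMod 2) ⊤) = tau T ψ hu a := by
  have h1 : ((a, fun _ => 0) : BObj Zh (ZMod 2) ⊤) =
      bTr Zh (ZMod 2) bot_le ((hf * a, fun _ => 0) : BObj Zh (ZMod 2) ⊥) := by
    apply Prod.ext
    · simp only [bTr, AddMonoidHom.coe_mk, ZeroHom.coe_mk]
      rw [relIndex_bot_top]
      have := two_mul_hf
      rw [nsmul_eq_mul]
      push_cast
      linear_combination (-a) * this
    · funext h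
      simp [bTr]
  rw [h1]
  have h2 := χ.app_tr (bot_le : (⊥ : Subgroup C2) ≤ ⊤)
    ((hf * a, fun _ => 0) : BObj Zh (ZMod 2) ⊥)
  refine h2.trans ?_
  rw [uniq_bot T ψ hu χ, tau_apply]

theorem uniq_top (x : BObj Zh (ZMod 2) ⊤) :
    χ.app ⊤ x = tau T ψ hu x.1 + lam T ψ hu (x.2 ⟨rfl⟩) := by
  rcases zmod2 (x.2 ⟨rfl⟩) with h | h
  · rw [h, map_zero, add_zero, ← uniq_tau T ψ hu χ]
    congr 1
    exact Prod.ext rfl (funext fun _ => h)
  · rw [h, lam_one, eps]
    have h1 : x = ((x.1 - 1, fun _ => 0) : BObj Zh (ZMod 2) ⊤) + 1 := by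
      apply Prod.ext
      · simp
      · funext e
        simp only [Prod.snd_add, Pi.add_apply, zero_add]
        exact h
    have h2 : χ.app ⊤ ((1 : BObj Zh (ZMod 2) ⊤)) = 1 := χ.app_one ⊤
    have h3 : ∀ u v : BObj Zh (ZMod 2) ⊤, χ.app ⊤ (u + v : BObj Zh (ZMod 2) ⊤) =
      χ.app ⊤ u + χ.app ⊤ v := fun u v => map_add (χ.hom ⊤) u v
    have h4 : χ.app ⊤ x = χ.app ⊤ ((x.1 - 1, fun _ => 0) : BObj Zh (ZMod 2) ⊤) + 1 := by
      conv_lhs => rw [h1]
      rw [h3, h2]
    rw [h4, uniq_tau T ψ hu χ, map_sub]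
    ring

end uniq

theorem hom_ext (χ χ' : Green.Hom SS T)
    (h : ∀ (H : Subgroup C2) (x : BObj Zh (ZMod 2) H), χ.app H x = χ'.app H x) : χ = χ' := by
  apply Green.Hom.ext
  funext H
  exact funext (h H)

include hu in
theorem existsUnique_hom :
    ∃! χ : Green.Hom SS T, ∀ (K : Subgroup C2) (x : RR.obj K),
      χ.app K (phi.app K x) = ψ.app K x := by
  obtain ⟨χ, hb, ht⟩ := exists_hom T ψ hu
  refine ⟨χ, fun K x => chi_phi T ψ hu χ hb ht K x, ?_⟩
  intro χ' _
  apply hom_ext
  intro H x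
  rcases bot_or_top H with rfl | rfl
  · rw [hb, uniq_bot T ψ hu χ']
  · rw [ht, uniq_top T ψ hu χ']

end univ

theorem isLoc : IsLocalizationAt (H := ⊥) (bb ⊥) phi := by
  constructor
  · refine ⟨((hf, fun _ => 0) : BObj Zh (ZMod 2) ⊥), ?_⟩
    change phiApp ⊥ (bb ⊥) * ((hf, fun _ => 0) : BObj Zh (ZMod 2) ⊥) = 1
    apply Prod.ext
    · simp [phiApp, bb, two_mul_hf]
    · exact bot_snd_ext _ _
  · intro T ψ hu
    exact existsUnique_hom T ψ hu

/-! ### Modules and box products -/

/-- The identity morphism. -/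
def Green.idHom (R : Green G) : Green.Hom R R where
  app _ x := x
  app_add _ _ := rfl
  app_res _ _ := rfl
  app_tr _ _ := rfl
  app_conj _ _ _ _ _ := rfl
  app_mul _ _ := rfl
  app_one _ := rfl

section selfPairLemmas
variable {R S : Green G} (φ : Green.Hom R S)

theorem sp_add (H : Subgroup G) (x x' : S.obj H) (y : R.obj H) :
    S.mul (x + x') (φ.app H y) = S.mul x (φ.app H y) + S.mul x' (φ.app H y) := by
  rw [S.mul_comm, S.mul_add, S.mul_comm x, S.mul_comm x']

theorem sp_add' (H : Subgroup G) (x : S.obj H) (y y' : R.obj H) :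
    S.mul x (φ.app H (y + y')) = S.mul x (φ.app H y) + S.mul x (φ.app H y') := by
  rw [φ.app_add, S.mul_add]

theorem sp_smul_right (H : Subgroup G) (r : R.obj H) (x : S.obj H) (y : R.obj H) :
    S.mul x (φ.app H (R.mul r y)) = S.mul (φ.app H r) (S.mul x (φ.app H y)) := by
  rw [φ.app_mul, ← S.mul_assoc, ← S.mul_assoc, S.mul_comm x]

theorem sp_res {K H : Subgroup G} (h : K ≤ H) (x : S.obj H) (y : R.obj H) :
    S.res h (S.mul x (φ.app _ y)) = S.mul (S.res h x) (φ.app _ (R.res h y)) := by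
  rw [S.res_mul, φ.app_res]

theorem sp_conj (g : G) {H K : Subgroup G} (h : cj g H = K) (x : S.obj H) (y : R.obj H) :
    S.conj g h (S.mul x (φ.app _ y)) = S.mul (S.conj g h x) (φ.app _ (R.conj g h y)) := by
  rw [S.conj_mul, φ.app_conj]

theorem sp_tr_left {K H : Subgroup G} (h : K ≤ H) (x : S.obj K) (y : R.obj H) :
    S.tr h (S.mul x (φ.app _ (R.res h y))) = S.mul (S.tr h x) (φ.app _ y) := by
  rw [φ.app_res, S.frobenius]

theorem sp_tr_right {K H : Subgroup G} (h : K ≤ H) (x : S.obj H) (y : R.obj K) :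
    S.tr h (S.mul (S.res h x) (φ.app _ y)) = S.mul x (φ.app _ (R.tr h y)) := by
  rw [S.mul_comm, S.frobenius, φ.app_tr, S.mul_comm]

theorem sp_one (H : Subgroup G) (x : S.obj H) : S.mul x (φ.app H (R.one H)) = x := by
  rw [φ.app_one, S.mul_comm, S.one_mul]

end selfPairLemmas

/-- The pairing `S, R → S`, `(s, r) ↦ s φ(r)`. -/
def selfPair {R S : Green G} (φ : Green.Hom R S) : Pairing φ.toMod (R.idHom).toMod φ.toMod where
  app {H} x y := S.mul x (φ.app H y)
  add_app {H} x x' y := sp_add φ H x x' y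
  app_add {H} x y y' := sp_add' φ H x y y'
  smul_left {H} r x y := S.mul_assoc (φ.app H r) x (φ.app H y)
  smul_right {H} r x y := sp_smul_right φ H r x y
  res_app h x y := sp_res φ h x y
  conj_app g _ _ h x y := sp_conj φ g h x y
  tr_left h x y := sp_tr_left φ h x y
  tr_right h x y := sp_tr_right φ h x y

/-- `S ⊠_R R = S`. -/
theorem selfPair_isBox {R S : Green G} (φ : Green.Hom R S) : (selfPair φ).IsBox := by
  intro Q η
  have key : ∀ (H : Subgroup G) (x : S.obj H) (y : R.obj H),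
      η.app (H := H) (S.mul x (φ.app H y)) (R.one H) = η.app (H := H) x y := by
    intro H x y
    rw [S.mul_comm]
    refine (η.smul_left y x (R.one H)).trans ?_
    refine (η.smul_right y x (R.one H)).symm.trans ?_
    congr 1
    change R.mul y (R.one H) = y
    rw [R.mul_comm, R.one_mul]
  refine ⟨{ app := fun H x => η.app x (R.one H), app_add := ?_
            app_res := ?_, app_tr := ?_, app_conj := ?_, app_smul := ?_ }, key, ?_⟩
  · intro H x y
    exact η.add_app x y (R.one H)
  · intro K H h x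
    change η.app (H := K) (S.res h x) (R.one K) = Q.res h (η.app (H := H) x (R.one H))
    rw [← R.res_one h]
    exact (η.res_app h x (R.one H)).symm
  · intro K H h x
    change η.app (H := H) (S.tr h x) (R.one H) = Q.tr h (η.app (H := K) x (R.one K))
    rw [← R.res_one h]
    exact (η.tr_left h x (R.one H)).symm
  · intro g H K h x
    change η.app (H := K) (S.conj g h x) (R.one K) = Q.conj g h (η.app (H := H) x (R.one H))
    rw [← R.conj_one g h]
    exact (η.conj_app g h x (R.one H)).symm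
  · intro H r x
    exact η.smul_left r x (R.one H)
  · intro f hf
    apply Mod.Hom.ext
    funext H x
    have h1 := hf H x (R.one H)
    have h2 : (selfPair φ).app (H := H) x (R.one H) = x := sp_one φ H x
    rw [h2] at h1
    exact h1

/-- The zero module. -/
def zeroMod (R : Green G) : Mod R where
  obj _ := PUnit
  res _ _ := PUnit.unit
  tr _ _ := PUnit.unit
  conj _ _ _ _ _ := PUnit.unit
  res_add _ _ _ := rfl
  tr_add _ _ _ := rfl
  conj_add _ _ _ _ _ _ := rfl
  res_refl _ _ := rfl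
  res_res _ _ _ := rfl
  tr_refl _ _ := rfl
  tr_tr _ _ _ := rfl
  conj_of_mem _ _ _ := rfl
  conj_conj _ _ _ _ _ _ _ _ _ := rfl
  conj_res _ _ _ _ _ _ _ _ _ _ := rfl
  conj_tr _ _ _ _ _ _ _ _ _ _ := rfl
  mackey _ _ _ := rfl
  smul _ _ := PUnit.unit
  smul_add _ _ _ := rfl
  add_smul _ _ _ := rfl
  one_smul _ := rfl
  mul_smul _ _ _ := rfl
  res_smul _ _ _ := rfl
  conj_smul _ _ _ _ _ _ := rfl
  tr_smul _ _ _ := rfl
  smul_tr _ _ _ := rfl

/-- The zero pairing `M, 0 → 0`. -/
def zeroPair {R : Green G} (M : Mod R) : Pairing M (zeroMod R) (zeroMod R) where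
  app _ _ := PUnit.unit
  add_app _ _ _ := rfl
  app_add _ _ _ := rfl
  smul_left _ _ _ := rfl
  smul_right _ _ _ := rfl
  res_app _ _ _ := rfl
  conj_app _ _ _ _ _ _ := rfl
  tr_left _ _ _ := rfl
  tr_right _ _ _ := rfl

/-- The zero morphism out of the zero module. -/
def zeroHom {R : Green G} (M : Mod R) : Mod.Hom (zeroMod R) M where
  app _ _ := 0
  app_add _ _ := (add_zero 0).symm
  app_res h _ := (map_zero (M.resHom h)).symm
  app_tr h _ := (map_zero (M.trHom h)).symm
  app_conj g _ _ h _ := (map_zero (M.conjAdd g h)).symm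
  app_smul r _ := (map_zero (M.act r)).symm

/-- `M ⊠_R 0 = 0`. -/
theorem zeroPair_isBox {R : Green G} (M : Mod R) : (zeroPair M).IsBox := by
  intro Q η
  refine ⟨zeroHom Q, ?_, ?_⟩
  · intro H x y
    exact (map_zero (η.hom x)).symm
  · intro f _
    apply Mod.Hom.ext
    funext H x
    exact map_zero (f.hom H)

/-- Multiplication by two. -/
def dbl {R : Green G} (M : Mod R) : Mod.Hom M M where
  app _ x := x + x
  app_add x y := add_add_add_comm x y x y
  app_res h x := (M.res_add h x x).symm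
  app_tr h x := (M.tr_add h x x).symm
  app_conj g _ _ h x := (M.conj_add g h x x).symm
  app_smul r x := (M.smul_add r x x).symm

theorem not_flat : ¬ Flat phi.toMod := by
  intro hF
  have hex : ExactSeq (zeroHom (RR.idHom).toMod) (dbl (RR.idHom).toMod) := by
    intro H y
    constructor
    · intro hy
      refine ⟨PUnit.unit, ?_⟩
      have h1 : (y : BObj ℤ PUnit H).1 + (y : BObj ℤ PUnit H).1 = 0 := congrArg Prod.fst hy
      have h2 : (y : BObj ℤ PUnit H).1 = 0 := by omega
      exact (Prod.ext h2 rfl : (y : BObj ℤ PUnit H) = 0).symm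
    · rintro ⟨z, rfl⟩
      exact map_zero ((dbl (RR.idHom).toMod).hom H)
  have h := hF _ _ _ _ _ hex _ _ _ (zeroPair phi.toMod) (selfPair phi) (selfPair phi)
    (zeroPair_isBox _) (selfPair_isBox _) (selfPair_isBox _) (zeroHom _) (dbl _)
    (fun H x y => (map_zero ((selfPair phi).hom x)).symm)
    (fun H x y => ((selfPair phi).app_add x y y).symm) ⊤
    ((0, fun _ => 1) : BObj Zh (ZMod 2) ⊤)
  have h1 : (dbl phi.toMod).app ⊤ ((0, fun _ => 1) : BObj Zh (ZMod 2) ⊤) = 0 := by
    change ((0, fun _ => 1) : BObj Zh (ZMod 2) ⊤) + (0, fun _ => 1) = 0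
    apply Prod.ext
    · exact add_zero (0 : Zh)
    · funext e
      change (1 : ZMod 2) + 1 = 0
      decide
  obtain ⟨z, hz⟩ := h.1 h1
  have h2 : (0 : BObj Zh (ZMod 2) ⊤) = (0, fun _ => 1) := hz
  have h3 : (0 : ZMod 2) = 1 := congrFun (congrArg Prod.snd h2) ⟨rfl⟩
  exact absurd h3 (by decide)

/-- **Main theorem.** There are a finite group `G`, a proper subgroup `H`, a commutative Green
functor `R` for `G` and `b ∈ R(G/H)` such that the localization `R[b⁻¹]` exists and is not flat
as an `R`-module. -/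
theorem result : ∃ (G : Type) (_ : Group G) (_ : Finite G) (H : Subgroup G) (_ : H < ⊤)
    (R : Green G) (b : R.obj H) (S : Green G) (φ : Green.Hom R S),
    IsLocalizationAt b φ ∧ ¬ Flat φ.toMod :=
  ⟨C2, inferInstance, inferInstance, ⊥, lt_top_iff_ne_top.2 bot_ne_top, RR, bb ⊥, SS, phi, isLoc,
    not_flat⟩

end Pool.Agent.Results.MP_196a0c_al.LocNotFlat
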